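import Pool.Agent.H.MP_c25556_co.C
import Pool.Agent.H.MP_c25556_co.E

set_option autoImplicit false

namespace Pool.Agent.Results.MP_c25556_co.Full

/-- The rooted degree: the number of subgraphs `H` of `G` admitting an isomorphism from `F`
which sends the root `r` to `v`. -/
noncomputable def rdeg {α V : Type} (F : SimpleGraph α) (r : α) (G : SimpleGraph V) (v : V) : ℕ :=
  {H : G.Subgraph | ∃ e : F ≃g H.coe, (e r).1 = v}.ncard

/-- `F` is the star with centre `r`. -/
def IsStarAt {α : Type} (F : SimpleGraph α) (r : α) : Prop :=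
  ∀ a b, F.Adj a b ↔ a ≠ b ∧ (a = r ∨ b = r)

theorem result (n : ℕ) (F : SimpleGraph (Fin n)) (r : Fin n) (hn : 3 ≤ n) (hF : F.Connected)
    (hs : ¬ IsStarAt F r) (z : ℕ) :
    ∃ (m : ℕ) (G : SimpleGraph (Fin m)), z ≤ m ∧ Function.Injective (rdeg F r G) := by
  by_cases hr : ∀ a, a ≠ r → F.Adj r a
  · obtain ⟨s, t, h1, h2, h3⟩ : ∃ s t, s ≠ r ∧ t ≠ r ∧ F.Adj s t := by
      by_contra hne
      apply hs
      intro a b
      constructor
      · intro h
        refine ⟨h.ne, ?_⟩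
        by_contra k
        rw [not_or] at k
        exact hne ⟨a, b, k.1, k.2, h⟩
      · rintro ⟨h, rfl | rfl⟩
        · exact hr b h.symm
        · exact (hr a h).symm
    by_cases h0 : ∀ a, a ≠ r → ∃ b, F.Adj a b ∧ b ≠ r
    · exact Pool.Agent.H.MP_c25556_co.caseB1 hr h1 h2 h3 h0 z
    · push Not at h0
      obtain ⟨a, k1, k2⟩ := h0
      exact Pool.Agent.H.MP_c25556_co.caseB0 hr h1 h2 h3 k1 k2 z
  · push Not at hr
    obtain ⟨c0, k1, k2⟩ := hr
    obtain ⟨w⟩ := hF.preconnected r c0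
    obtain ⟨dd, -, d1, d2⟩ := w.exists_boundary_dart {x | x = r ∨ F.Adj r x} (Or.inl rfl)
      (fun h => h.elim k1 k2)
    simp only [Set.mem_ofPred_eq, not_or] at d1 d2
    have hsc := dd.adj
    exact Pool.Agent.H.MP_c25556_co.caseA hn
      ⟨dd.fst, dd.snd, d1.resolve_left (fun e => d2.2 (e ▸ hsc)), hsc, d2.2, d2.1⟩ z

end Pool.Agent.Results.MP_c25556_co.Full
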